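import Pool.Graph.R_pool_sql_team_seeded_3997aac3.Q18.KZ.All
import Pool.Graph.R_pool_sql_team_seeded_64922ed1.X26.CM.Base

/-!
The completely multiplicative function of the library with partial sums `O(N^(-1/2-c))`, and the
replacement of its values on thin sets of primes.
-/

set_option autoImplicit false

namespace Pool.Agent.H418.KS

open Finset Filter Topology
open Pool.Agent.X26.CM

/-- the function of the library -/
theorem exists_f0 : ∃ (f : ℕ → ℝ) (c C : ℝ), 0 < c ∧ 0 < C ∧ f 1 = 1 ∧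
    (∀ m n : ℕ, 1 ≤ m → 1 ≤ n → f (m * n) = f m * f n) ∧
    ∀ N : ℕ, 1 ≤ N → |∑ n ∈ Icc 1 N, f n| ≤ C * (N : ℝ) ^ (-(1 / 2 : ℝ) - c) :=
  Pool.Agent.Q18.KZ.a_FIN (Pool.Agent.Q18.KZ.a_ENV Pool.Agent.Q278.KT.mainp_half
    Pool.Agent.Q278.KT.mainp_043 Pool.Agent.Q278.KT.mainp_1316)

/-- the values of a completely multiplicative function at the primes are not larger than the rate of
decay of its partial sums -/
theorem prime_bound (F : ℕ → ℂ) (h1 : F 1 = 1)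
    (hF : ∀ m n : ℕ, 1 ≤ m → 1 ≤ n → F (m * n) = F m * F n) (θ C : ℝ) (hθ : 0 < θ)
    (hb : ∀ N : ℕ, 1 ≤ N → ‖∑ n ∈ Icc 1 N, F n‖ ≤ C * (N : ℝ) ^ (-θ)) (p : ℕ) (hp : p.Prime) :
    ‖F p‖ ≤ (p : ℝ) ^ (-θ) := by
  have hC : 0 ≤ C := by
    have h2 := hb 1 le_rfl
    rw [Nat.cast_one, Real.one_rpow, mul_one] at h2
    exact (norm_nonneg _).trans h2
  -- all values
  have hval : ∀ n : ℕ, 2 ≤ n → ‖F n‖ ≤ C * (1 + 2 ^ θ) * (n : ℝ) ^ (-θ) := by
    intro n hn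
    obtain ⟨m, rfl⟩ : ∃ m, n = m + 1 := ⟨n - 1, by omega⟩
    have hm : 1 ≤ m := by omega
    have hs : ∑ k ∈ Icc 1 (m + 1), F k = ∑ k ∈ Icc 1 m, F k + F (m + 1) :=
      Finset.sum_Icc_succ_top (by omega) _
    have e : F (m + 1) = ∑ k ∈ Icc 1 (m + 1), F k - ∑ k ∈ Icc 1 m, F k := by rw [hs]; ring
    have hm0 : (0 : ℝ) < m := by exact_mod_cast hm
    have h3 : (m : ℝ) ^ (-θ) ≤ 2 ^ θ * ((m + 1 : ℕ) : ℝ) ^ (-θ) := by
      have h4 : ((m + 1 : ℕ) : ℝ) / 2 ≤ m := by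
        have : (1 : ℝ) ≤ m := by exact_mod_cast hm
        push_cast
        linarith
      have h5 : (m : ℝ) ^ (-θ) ≤ (((m + 1 : ℕ) : ℝ) / 2) ^ (-θ) :=
        Real.rpow_le_rpow_of_nonpos (by positivity) h4 (by linarith)
      refine h5.trans (le_of_eq ?_)
      rw [Real.div_rpow (by positivity) (by norm_num), Real.rpow_neg (by norm_num : (0 : ℝ) ≤ 2),
        div_inv_eq_mul, mul_comm]
    calc ‖F (m + 1)‖ ≤ ‖∑ k ∈ Icc 1 (m + 1), F k‖ + ‖∑ k ∈ Icc 1 m, F k‖ := by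
          rw [e]; exact norm_sub_le _ _
      _ ≤ C * ((m + 1 : ℕ) : ℝ) ^ (-θ) + C * (m : ℝ) ^ (-θ) :=
          add_le_add (hb _ (by omega)) (hb _ hm)
      _ ≤ C * ((m + 1 : ℕ) : ℝ) ^ (-θ) + C * (2 ^ θ * ((m + 1 : ℕ) : ℝ) ^ (-θ)) := by gcongr
      _ = _ := by ring
  have hpow : ∀ k : ℕ, F (p ^ k) = F p ^ k := by
    intro k
    induction k with
    | zero => rw [pow_zero, pow_zero, h1]
    | succ k ih => rw [pow_succ, hF _ _ (Nat.one_le_pow _ _ hp.pos) hp.one_lt.le, ih, pow_succ]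
  have hp0 : (0 : ℝ) < p := by exact_mod_cast hp.pos
  by_contra hcon
  rw [not_le] at hcon
  set u : ℝ := (p : ℝ) ^ (-θ) with hu
  have hu0 : 0 < u := Real.rpow_pos_of_pos hp0 _
  have hr : 1 < ‖F p‖ / u := by rwa [one_lt_div hu0]
  obtain ⟨k, hk⟩ := pow_unbounded_of_one_lt (C * (1 + 2 ^ θ)) hr
  have hk' : C * (1 + 2 ^ θ) < (‖F p‖ / u) ^ (k + 1) :=
    hk.trans_le (pow_le_pow_right₀ hr.le (by omega))
  have h6 := hval (p ^ (k + 1)) (hp.two_le.trans (Nat.le_self_pow (by omega) p))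
  rw [hpow, norm_pow, Nat.cast_pow, ← Real.rpow_natCast (p : ℝ) (k + 1), ← Real.rpow_mul hp0.le,
    mul_comm ((k + 1 : ℕ) : ℝ), Real.rpow_mul hp0.le, Real.rpow_natCast, ← hu] at h6
  rw [div_pow, lt_div_iff₀ (by positivity)] at hk'
  linarith

/-- replacing the values of `F` on a thin set of primes -/
theorem replace (F : ℕ → ℂ) (h1 : F 1 = 1)
    (hF : ∀ m n : ℕ, 1 ≤ m → 1 ≤ n → F (m * n) = F m * F n) (θ C : ℝ) (hθ : 0 < θ)
    (hb : ∀ N : ℕ, 1 ≤ N → ‖∑ n ∈ Icc 1 N, F n‖ ≤ C * (N : ℝ) ^ (-θ))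
    (e : ℝ) (he : 0 < e) (he1 : e < θ) (P : Set ℕ) (a : ℕ → ℂ) (hP : ∀ p ∈ P, p.Prime)
    (ha : ∀ p ∈ P, ‖a p‖ * (p : ℝ) ^ (θ - e) < 1)
    (hS : Summable fun p : ℕ => P.indicator (fun p => (p : ℝ) ^ (-e)) p)
    (hSa : Summable fun p : ℕ => P.indicator (fun p => ‖a p‖ * (p : ℝ) ^ (θ - e)) p) :
    ∃ C' : ℝ, 0 ≤ C' ∧ ∀ N : ℕ, 1 ≤ N →
      ‖∑ n ∈ Icc 1 N, repl P a F n‖ ≤ C' * (N : ℝ) ^ (-(θ - e)) := by
  have hC : 0 ≤ C := by
    have h2 := hb 1 le_rfl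
    rw [Nat.cast_one, Real.one_rpow, mul_one] at h2
    exact (norm_nonneg _).trans h2
  have hFn : ∀ p : ℕ, p.Prime → ‖F p‖ * (p : ℝ) ^ (θ - e) ≤ (p : ℝ) ^ (-e) := by
    intro p hp
    have hp0 : (0 : ℝ) < p := by exact_mod_cast hp.pos
    calc ‖F p‖ * (p : ℝ) ^ (θ - e) ≤ (p : ℝ) ^ (-θ) * (p : ℝ) ^ (θ - e) := by
          have := prime_bound F h1 hF θ C hθ hb p hp
          gcongr
      _ = (p : ℝ) ^ (-e) := by rw [← Real.rpow_add hp0]; congr 1; ring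
  have hFC : ∀ N : ℕ, 1 ≤ N → ‖∑ n ∈ Icc 1 N, F n‖ ≤ C * (N : ℝ) ^ (-(θ - e)) := by
    intro N hN
    refine (hb N hN).trans (mul_le_mul_of_nonneg_left ?_ hC)
    exact Real.rpow_le_rpow_of_exponent_le (by exact_mod_cast hN) (by linarith)
  have k1 : ∀ p : ℕ, p.Prime → ‖repl P a F p‖ * (p : ℝ) ^ (θ - e) < 1 := by
    intro p hp
    by_cases h : p ∈ P
    · rw [repl_in P a F p hp h]
      exact ha p h
    · rw [repl_out P a F p hp h]
      exact (hFn p hp).trans_lt (Real.rpow_lt_one_of_one_lt_of_neg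
        (by exact_mod_cast hp.one_lt) (by linarith))
  have k2 : Summable fun p : ℕ => if p.Prime then
      ‖repl P a F p - F p‖ * (p : ℝ) ^ (θ - e) else 0 := by
    refine Summable.of_nonneg_of_le (fun p => by split_ifs <;> positivity) (fun p => ?_)
      (hSa.add hS)
    by_cases h : p ∈ P
    · rw [if_pos (hP p h), Set.indicator_of_mem h, Set.indicator_of_mem h,
        repl_in P a F p (hP p h) h]
      calc ‖a p - F p‖ * (p : ℝ) ^ (θ - e)
          ≤ (‖a p‖ + ‖F p‖) * (p : ℝ) ^ (θ - e) := by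
            gcongr
            exact norm_sub_le _ _
        _ = ‖a p‖ * (p : ℝ) ^ (θ - e) + ‖F p‖ * (p : ℝ) ^ (θ - e) := by ring
        _ ≤ _ := add_le_add le_rfl (hFn p (hP p h))
    · rw [Set.indicator_of_notMem h, Set.indicator_of_notMem h, add_zero]
      split_ifs with hp
      · rw [repl_out P a F p hp h, sub_self, norm_zero, zero_mul]
      · exact le_rfl
  have k3 : Tendsto (fun p : ℕ => if p.Prime then
      ‖repl P a F p‖ * (p : ℝ) ^ (θ - e) else 0) atTop (𝓝 0) := by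
    have h3 : Tendsto (fun p : ℕ => (p : ℝ) ^ (-e)) atTop (𝓝 0) :=
      (tendsto_rpow_neg_atTop he).comp tendsto_natCast_atTop_atTop
    have h4 := hSa.tendsto_atTop_zero.add h3
    rw [add_zero] at h4
    refine squeeze_zero (fun p => by split_ifs <;> positivity) (fun p => ?_) h4
    by_cases h : p ∈ P
    · rw [if_pos (hP p h), Set.indicator_of_mem h, repl_in P a F p (hP p h) h]
      have h5 : (0 : ℝ) ≤ (p : ℝ) ^ (-e) := by positivity
      linarith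
    · rw [Set.indicator_of_notMem h, zero_add]
      split_ifs with hp
      · rw [repl_out P a F p hp h]
        exact hFn p hp
      · positivity
  exact keep_rpow (θ - e) (by linarith) F (repl P a F) h1 (fun m n hm hn => hF m n hm hn)
    (repl_one P a F) (fun m n _ _ => repl_mul P a F m n) k1 k2 k3 C hFC

end Pool.Agent.H418.KS
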