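import Pool.Graph.R_seed8.Y973.MO.Conv

/-!
Convolution with a multiplicative function whose local factors are prescribed on a set of primes.
-/

set_option autoImplicit false

namespace Pool.Agent.H418.KS

open Finset Filter Topology
open Pool.Agent.Y973.MO (af af_apply af_mul)

open Classical in
/-- the multiplicative function with the local factors `a p` at the primes of `P` and trivial ones
elsewhere -/
noncomputable def hP (P : Set ℕ) (a : ℕ → ℕ → ℂ) : ArithmeticFunction ℂ :=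
  ⟨fun n => if n = 0 then 0 else n.factorization.prod fun p k => if p ∈ P then a p k else 0,
    by simp⟩

open Classical in
lemma hP_apply (P : Set ℕ) (a : ℕ → ℕ → ℂ) (n : ℕ) (hn : n ≠ 0) :
    hP P a n = n.factorization.prod fun p k => if p ∈ P then a p k else 0 := by
  have e1 : hP P a n = if n = 0 then 0 else
    n.factorization.prod fun p k => if p ∈ P then a p k else 0 := rfl
  rw [e1, if_neg hn]

lemma hP_one (P : Set ℕ) (a : ℕ → ℕ → ℂ) : hP P a 1 = 1 := by
  rw [hP_apply P a 1 one_ne_zero]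
  simp

lemma hP_mul (P : Set ℕ) (a : ℕ → ℕ → ℂ) : (hP P a).IsMultiplicative := by
  refine ⟨hP_one P a, ?_⟩
  intro m n hmn
  by_cases hm : m = 0
  · subst hm; simp
  by_cases hn : n = 0
  · subst hn; simp
  rw [hP_apply _ _ _ (mul_ne_zero hm hn), hP_apply _ _ _ hm, hP_apply _ _ _ hn,
    Nat.factorization_mul hm hn]
  exact Finsupp.prod_add_index_of_disjoint (Nat.Coprime.disjoint_primeFactors hmn) _

open Classical in
lemma hP_pow (P : Set ℕ) (a : ℕ → ℕ → ℂ) (p : ℕ) (hp : p.Prime) (k : ℕ) (hk : k ≠ 0) :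
    hP P a (p ^ k) = if p ∈ P then a p k else 0 := by
  rw [hP_apply _ _ _ (pow_ne_zero _ hp.ne_zero), hp.factorization_pow, Finsupp.prod]
  rw [Finsupp.support_single _ hk, prod_singleton, Finsupp.single_eq_same]

lemma hP_zero_of (P : Set ℕ) (a : ℕ → ℕ → ℂ) (n : ℕ) (hn : n ≠ 0) (p : ℕ) (hp : p.Prime)
    (hpn : p ∣ n) (hpP : p ∉ P) : hP P a n = 0 := by
  rw [hP_apply _ _ _ hn, Finsupp.prod]
  apply Finset.prod_eq_zero (i := p)
  · rw [Nat.support_factorization]
    exact Nat.mem_primeFactors.2 ⟨hp, hpn, hn⟩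
  · rw [if_neg hpP]

/-- the local conditions give absolute convergence -/
lemma hP_summable (P : Set ℕ) (a : ℕ → ℕ → ℂ) (β : ℝ)
    (hs : Summable fun x : ℕ × ℕ =>
      P.indicator (fun p => ‖a p (x.2 + 1)‖ * (p : ℝ) ^ (β * ((x.2 + 1 : ℕ) : ℝ))) x.1) :
    Summable fun m : ℕ => ‖hP P a m‖ * (m : ℝ) ^ β := by
  classical
  set w : ℕ → ℝ := fun m => ‖hP P a m‖ * (m : ℝ) ^ β with hw
  have hw0 : ∀ m, 0 ≤ w m := fun m => mul_nonneg (norm_nonneg _)
    (Real.rpow_nonneg (Nat.cast_nonneg _) _)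
  have hw1 : w 1 = 1 := by
    simp only [hw]
    rw [hP_one]
    simp
  have hwm : ∀ {m n : ℕ}, Nat.Coprime m n → w (m * n) = w m * w n := by
    intro m n hmn
    simp only [hw]
    rw [(hP_mul P a).map_mul_of_coprime hmn, norm_mul, Nat.cast_mul,
      Real.mul_rpow (Nat.cast_nonneg _) (Nat.cast_nonneg _)]
    ring
  have hwp : ∀ p : ℕ, p.Prime → ∀ k : ℕ, w (p ^ (k + 1)) =
      P.indicator (fun p => ‖a p (k + 1)‖ * (p : ℝ) ^ (β * ((k + 1 : ℕ) : ℝ))) p := by
    intro p hp k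
    simp only [hw]
    rw [hP_pow P a p hp (k + 1) (by omega), Nat.cast_pow, ← Real.rpow_natCast,
      ← Real.rpow_mul (Nat.cast_nonneg _), mul_comm ((k + 1 : ℕ) : ℝ)]
    by_cases h : p ∈ P
    · rw [if_pos h, Set.indicator_of_mem h]
    · rw [if_neg h, Set.indicator_of_notMem h, norm_zero, zero_mul]
  have hs' := (summable_prod_of_nonneg (fun x => by
    exact Set.indicator_nonneg (fun p _ => by positivity) _)).1 hs
  have hgs : ∀ {p : ℕ}, p.Prime → Summable (fun n : ℕ => ‖w (p ^ n)‖) := by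
    intro p hp
    rw [← summable_nat_add_iff 1]
    refine (hs'.1 p).congr fun k => ?_
    rw [hwp p hp k, Real.norm_of_nonneg (Set.indicator_nonneg (fun p _ => by positivity) _)]
  have hsum : ∀ p : ℕ, p.Prime → ∑' k : ℕ, w (p ^ k) = 1 + ∑' k : ℕ,
      P.indicator (fun p => ‖a p (k + 1)‖ * (p : ℝ) ^ (β * ((k + 1 : ℕ) : ℝ))) p := by
    intro p hp
    have h1 : Summable (fun n : ℕ => w (p ^ n)) := by
      refine (hgs hp).congr fun n => Real.norm_of_nonneg (hw0 _)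
    rw [h1.tsum_eq_zero_add, pow_zero, hw1]
    congr 1
    exact tsum_congr fun k => hwp p hp k
  refine summable_of_sum_range_le (c := Real.exp (∑' p : ℕ, ∑' k : ℕ,
      P.indicator (fun p => ‖a p (k + 1)‖ * (p : ℝ) ^ (β * ((k + 1 : ℕ) : ℝ))) p)) hw0 fun N => ?_
  have hE := (EulerProduct.summable_and_hasSum_smoothNumbers_prod_primesBelow_tsum hw1 hwm
    hgs N).2
  have h2 := (hasSum_subtype_iff_indicator (f := w) (s := Nat.smoothNumbers N)).mp hE
  have h3 := sum_le_hasSum (Finset.range N) (fun n _ => Set.indicator_nonneg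
    (fun m _ => hw0 m) n) h2
  have h4 : ∑ i ∈ Finset.range N, w i ≤ ∑ i ∈ Finset.range N,
      (Nat.smoothNumbers N).indicator w i := by
    refine Finset.sum_le_sum fun n hn => ?_
    rw [Finset.mem_range] at hn
    rcases Nat.eq_zero_or_pos n with h0 | hpos
    · rw [h0]
      have : w 0 = 0 := by simp [hw]
      rw [this]
      exact Set.indicator_nonneg (fun m _ => hw0 m) 0
    · rw [Set.indicator_of_mem (Nat.mem_smoothNumbers_of_lt hpos hn)]
  refine (h4.trans h3).trans ?_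
  have h5 : ∏ p ∈ N.primesBelow, ∑' n : ℕ, w (p ^ n) ≤ ∏ p ∈ N.primesBelow,
      Real.exp (∑' k : ℕ,
        P.indicator (fun p => ‖a p (k + 1)‖ * (p : ℝ) ^ (β * ((k + 1 : ℕ) : ℝ))) p) := by
    refine Finset.prod_le_prod (fun p _ => tsum_nonneg fun _ => hw0 _) fun p hpb => ?_
    rw [hsum p (Nat.prime_of_mem_primesBelow hpb), add_comm]
    exact Real.add_one_le_exp _
  refine h5.trans ?_
  rw [← Real.exp_sum]
  refine Real.exp_le_exp.mpr ?_
  exact hs'.2.sum_le_tsum _ fun p _ => tsum_nonneg fun k =>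
    Set.indicator_nonneg (fun p _ => by positivity) _

/-- power decay is kept by the convolution -/
lemma conv_bound (h : ArithmeticFunction ℂ) (β : ℝ) (hβ : 0 ≤ β)
    (hsum : Summable fun m : ℕ => ‖h m‖ * (m : ℝ) ^ β) (f : ℕ → ℂ) (C : ℝ) (hC : 0 ≤ C)
    (hf : ∀ N : ℕ, 1 ≤ N → ‖∑ n ∈ Icc 1 N, f n‖ ≤ C * (N : ℝ) ^ (-β)) :
    ∃ C' : ℝ, 0 < C' ∧ ∀ N : ℕ, 1 ≤ N →
      ‖∑ n ∈ Icc 1 N, (h * af f) n‖ ≤ C' * (N : ℝ) ^ (-β) := by
  set T := ∑' m : ℕ, ‖h m‖ * (m : ℝ) ^ β with hT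
  have hT0 : 0 ≤ T := tsum_nonneg fun m => mul_nonneg (norm_nonneg _)
    (Real.rpow_nonneg (Nat.cast_nonneg _) _)
  refine ⟨C * 2 ^ β * T + 1, by positivity, fun N hN => ?_⟩
  have hN0 : (0 : ℝ) < N := by exact_mod_cast hN
  have e1 : Icc 1 N = Ioc 0 N := by
    ext n; simp only [mem_Icc, mem_Ioc]; omega
  have key : ∀ d ∈ Ioc 0 N, ‖h d * ∑ m ∈ Ioc 0 (N / d), af f m‖ ≤
      (C * 2 ^ β * (N : ℝ) ^ (-β)) * (‖h d‖ * (d : ℝ) ^ β) := by
    intro d hd
    rw [mem_Ioc] at hd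
    have hd0 : (0 : ℝ) < d := by exact_mod_cast hd.1
    have hNd : 1 ≤ N / d := (Nat.one_le_div_iff hd.1).2 hd.2
    have h1 : ∑ m ∈ Ioc 0 (N / d), af f m = ∑ m ∈ Icc 1 (N / d), f m := by
      have e2 : Ioc 0 (N / d) = Icc 1 (N / d) := by
        ext n; simp only [mem_Icc, mem_Ioc]; omega
      rw [e2]
      apply sum_congr rfl
      intro m hm
      rw [mem_Icc] at hm
      exact af_apply f m (by omega)
    have h2 : (N : ℝ) / (2 * d) ≤ ((N / d : ℕ) : ℝ) := by
      have h3 : N < 2 * d * (N / d) := by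
        have h4 := Nat.lt_mul_div_succ N hd.1
        have h5 : d * (N / d + 1) ≤ 2 * d * (N / d) := by nlinarith
        omega
      rw [div_le_iff₀ (by positivity)]
      have h4 : (N : ℝ) ≤ ((2 * d * (N / d) : ℕ) : ℝ) := by exact_mod_cast h3.le
      push_cast at h4
      linarith
    have h3 : ((N / d : ℕ) : ℝ) ^ (-β) ≤ ((N : ℝ) / (2 * d)) ^ (-β) :=
      Real.rpow_le_rpow_of_nonpos (by positivity) h2 (by linarith)
    have h4 : ((N : ℝ) / (2 * d)) ^ (-β) = 2 ^ β * (N : ℝ) ^ (-β) * (d : ℝ) ^ β := by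
      rw [Real.div_rpow hN0.le (by positivity), Real.mul_rpow (by norm_num) hd0.le,
        Real.rpow_neg (by norm_num : (0 : ℝ) ≤ 2), Real.rpow_neg hd0.le]
      field_simp
    rw [norm_mul, h1]
    calc ‖h d‖ * ‖∑ m ∈ Icc 1 (N / d), f m‖
        ≤ ‖h d‖ * (C * (2 ^ β * (N : ℝ) ^ (-β) * (d : ℝ) ^ β)) := by
          apply mul_le_mul_of_nonneg_left _ (norm_nonneg _)
          refine (hf _ hNd).trans ?_
          apply mul_le_mul_of_nonneg_left _ hC
          rw [← h4]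
          exact h3
      _ = _ := by ring
  rw [e1, ArithmeticFunction.sum_Ioc_mul_eq_sum_sum]
  refine (norm_sum_le _ _).trans ((sum_le_sum key).trans ?_)
  rw [← mul_sum]
  have h5 : ∑ d ∈ Ioc 0 N, ‖h d‖ * (d : ℝ) ^ β ≤ T :=
    hsum.sum_le_tsum _ fun m _ => mul_nonneg (norm_nonneg _)
      (Real.rpow_nonneg (Nat.cast_nonneg _) _)
  have h6 : 0 ≤ C * 2 ^ β * (N : ℝ) ^ (-β) := by positivity
  have h7 : 0 ≤ (N : ℝ) ^ (-β) := by positivity
  nlinarith [mul_le_mul_of_nonneg_left h5 h6]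

/-- the convolution at a prime power -/
lemma conv_pow (P : Set ℕ) (a : ℕ → ℕ → ℂ) (f : ℕ → ℂ) (p : ℕ) (hp : p.Prime) (k : ℕ) :
    (hP P a * af f) (p ^ k) = ∑ i ∈ range (k + 1), hP P a (p ^ i) * f (p ^ (k - i)) := by
  rw [ArithmeticFunction.mul_apply,
    Nat.sum_divisorsAntidiagonal (fun x y => hP P a x * af f y), Nat.sum_divisors_prime_pow hp]
  apply sum_congr rfl
  intro i hi
  rw [mem_range] at hi
  rw [Nat.pow_div (by omega) hp.pos, af_apply _ _ (pow_ne_zero _ hp.ne_zero)]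

/-- values of the convolution at powers of the primes of `P` -/
lemma conv_pow_in (P : Set ℕ) (a : ℕ → ℕ → ℂ) (f : ℕ → ℂ) (h1 : f 1 = 1) (p : ℕ) (hp : p.Prime)
    (hpP : p ∈ P) (ha0 : a p 0 = 1) (hf : ∀ k, 1 ≤ k → f (p ^ k) = 0) (k : ℕ) :
    (hP P a * af f) (p ^ k) = a p k := by
  rw [conv_pow P a f p hp, sum_range_succ, sum_eq_zero, zero_add, Nat.sub_self, pow_zero, h1,
    mul_one]
  · rcases Nat.eq_zero_or_pos k with rfl | hk
    · rw [pow_zero, hP_one, ha0]
    · rw [hP_pow P a p hp k hk.ne', if_pos hpP]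
  · intro i hi
    rw [mem_range] at hi
    rw [hf (k - i) (by omega), mul_zero]

/-- values of the convolution at integers without prime factors in `P` -/
lemma conv_out (P : Set ℕ) (a : ℕ → ℕ → ℂ) (f : ℕ → ℂ) (n : ℕ) (hn : 1 ≤ n)
    (hnP : ∀ p ∈ P, ¬ p ∣ n) : (hP P a * af f) n = f n := by
  rw [ArithmeticFunction.mul_apply, Finset.sum_eq_single (1, n)]
  · rw [hP_one, one_mul, af_apply _ _ (by omega)]
  · rintro ⟨x, y⟩ hxy hne
    rw [Nat.mem_divisorsAntidiagonal] at hxy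
    obtain ⟨h1, h2⟩ := hxy
    have hx0 : x ≠ 0 := by
      rintro rfl
      simp at h1
      omega
    have hx1 : x ≠ 1 := by
      rintro rfl
      apply hne
      rw [one_mul] at h1
      have h1' : y = n := h1
      rw [h1']
    obtain ⟨p, hp, hpx⟩ := Nat.exists_prime_and_dvd hx1
    have hpn : p ∣ n := by
      rw [← h1]
      exact hpx.mul_right _
    show hP P a x * af f y = 0
    rw [hP_zero_of P a x hx0 p hp hpx (fun h => hnP p h hpn), zero_mul]
  · intro h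
    exfalso
    apply h
    rw [Nat.mem_divisorsAntidiagonal]
    exact ⟨one_mul n, by omega⟩

/-- real local factors -/
lemma hP_real (P : Set ℕ) (a : ℕ → ℕ → ℂ)
    (ha : ∀ p ∈ P, ∀ k, (starRingEnd ℂ) (a p k) = a p k) (n : ℕ) :
    (starRingEnd ℂ) (hP P a n) = hP P a n := by
  classical
  by_cases hn : n = 0
  · subst hn; simp
  rw [hP_apply _ _ _ hn, Finsupp.prod, map_prod]
  apply Finset.prod_congr rfl
  intro p _
  split_ifs with h
  · exact ha p h _
  · exact map_zero _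

lemma conv_real (h : ArithmeticFunction ℂ) (f : ℕ → ℂ)
    (hh : ∀ n, (starRingEnd ℂ) (h n) = h n) (hf : ∀ n, 1 ≤ n → (starRingEnd ℂ) (f n) = f n)
    (n : ℕ) : (starRingEnd ℂ) ((h * af f) n) = (h * af f) n := by
  rw [ArithmeticFunction.mul_apply, map_sum]
  apply Finset.sum_congr rfl
  rintro ⟨x, y⟩ hxy
  rw [Nat.mem_divisorsAntidiagonal] at hxy
  have hy : y ≠ 0 := by
    rintro rfl
    rw [mul_zero] at hxy
    exact hxy.2 hxy.1.symm
  show (starRingEnd ℂ) (h x * af f y) = h x * af f y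
  rw [map_mul, hh, af_apply _ _ hy, hf y (by omega)]

end Pool.Agent.H418.KS
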